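import Pool.Agent.N931.PN.Stm4

/-!
Project PN, part INT: integrals with respect to the laws of the paths.
-/

set_option autoImplicit false

namespace Pool.Agent.N348.PN.Int

open H974 H12S H389NS H984N H984P H342P Finset MeasureTheory Filter Topology
open Pool.Agent.N116.EW Pool.Agent.N931.PN
open H342L (cdist Curve)

theorem E2_swap {E : Type*} [DecidableEq E] (ρ : E → ℝ) (S : Finset E)
    (h : Finset E → Finset E → ℝ) : E2 ρ S h = E2 ρ S (fun F F' => h F' F) := by
  unfold E2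
  rw [Finset.sum_comm]
  refine Finset.sum_congr rfl fun F _ => Finset.sum_congr rfl fun F' _ => ?_
  congr 1
  refine Finset.prod_congr rfl fun e _ => ?_
  by_cases he : (e ∈ F' ↔ e ∈ F)
  · rw [if_pos he, if_pos he.symm]
  · rw [if_neg he, if_neg (fun h => he h.symm)]

theorem E2_eps (ε : unitInterval) (S : Finset Edg) (h : Finset Edg → Finset Edg → ℝ) :
    E2 (fun _ => 1 - (ε : ℝ)) S h = ∑ F ∈ S.powerset, ∑ F' ∈ S.powerset,
      (∏ e ∈ S, (if (e ∈ F ↔ e ∈ F') then (2 - (ε : ℝ)) / 4 else (ε : ℝ) / 4)) * h F F' := by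
  classical
  unfold E2
  apply Finset.sum_congr rfl
  intro F _
  apply Finset.sum_congr rfl
  intro F' _
  congr 1
  apply Finset.prod_congr rfl
  intro e _
  by_cases h : (e ∈ F ↔ e ∈ F')
  · simp only [h]
    norm_num
    ring
  · simp only [h]
    norm_num

theorem int_law2 (R : Rect) (δ : ℝ) (ε : unitInterval) (Φ : Curve × Curve → ℝ)
    (hΦ : Continuous Φ) (hb : ∃ M : ℝ, ∀ q, |Φ q| ≤ M) :
    ∫ q, Φ q ∂(law2 R δ ε : Measure (Curve × Curve)) =
      E2 (fun _ => 1 - (ε : ℝ)) (R.dm δ).edges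
        (fun F F' => Φ (⟨R.curve δ F⟩, ⟨R.curve δ F'⟩)) := by
  classical
  obtain ⟨M, hM⟩ := hb
  have h0 : 0 ≤ (ε : ℝ) := ε.2.1
  have h1 : (ε : ℝ) ≤ 1 := ε.2.2
  have hsm : StronglyMeasurable Φ := hΦ.stronglyMeasurable
  have hint : ∀ (a : Curve × Curve) (x : ℝ),
      Integrable Φ (ENNReal.ofReal x • Measure.dirac a) := by
    intro a x
    refine Integrable.smul_measure ?_ ENNReal.ofReal_ne_top
    refine Integrable.of_bound hsm.aestronglyMeasurable M ?_
    exact Eventually.of_forall fun q => by rw [Real.norm_eq_abs]; exact hM q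
  have hw : ∀ F F' : Finset Edg, 0 ≤ ∏ e ∈ (R.dm δ).edges,
      (if (e ∈ F ↔ e ∈ F') then (2 - (ε : ℝ)) / 4 else (ε : ℝ) / 4) := by
    intro F F'
    apply Finset.prod_nonneg
    intro e _
    split_ifs <;> linarith
  rw [E2_eps]
  show ∫ q, Φ q ∂(law2M R δ ε) = _
  unfold law2M
  rw [integral_finsetSum_measure fun F _ => integrable_finsetSum_measure.2 fun F' _ => hint _ _]
  refine Finset.sum_congr rfl fun F _ => ?_
  rw [integral_finsetSum_measure fun F' _ => hint _ _]
  refine Finset.sum_congr rfl fun F' _ => ?_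
  rw [integral_smul_measure, integral_dirac' _ _ hsm, ENNReal.toReal_ofReal (hw F F'),
    smul_eq_mul]

theorem hp_eq : (fun _ : Edg => ((pc : unitInterval) : ℝ)) = (hp : Edg → ℝ) := by
  funext e
  rfl

theorem int_law (R : Rect) (δ : ℝ) (f : Curve → ℝ) (hf' : Continuous f)
    (hb : ∃ M : ℝ, ∀ γ, |f γ| ≤ M) :
    ∫ γ, f γ ∂(law R δ pc : Measure Curve) = Ex hp (R.dm δ).edges (hf R δ f) := by
  classical
  obtain ⟨M, hM⟩ := hb
  have hsm : StronglyMeasurable f := hf'.stronglyMeasurable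
  have hint : ∀ (a : Curve) (x : ℝ), Integrable f (ENNReal.ofReal x • Measure.dirac a) := by
    intro a x
    refine Integrable.smul_measure ?_ ENNReal.ofReal_ne_top
    refine Integrable.of_bound hsm.aestronglyMeasurable M ?_
    exact Eventually.of_forall fun q => by rw [Real.norm_eq_abs]; exact hM q
  show ∫ γ, f γ ∂(lawM R δ pc) = _
  unfold lawM
  rw [integral_finsetSum_measure fun F _ => hint _ _]
  unfold Ex
  refine Finset.sum_congr rfl fun F _ => ?_
  have hpc : ((pc : unitInterval) : ℝ) = 1 / 2 := rfl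
  rw [integral_smul_measure, integral_dirac' _ _ hsm, ENNReal.toReal_ofReal, smul_eq_mul]
  · have e1 : ∏ e ∈ F, (hp : Edg → ℝ) e = ((pc : unitInterval) : ℝ) ^ F.card := by
      rw [hpc, ← Finset.prod_const]
      rfl
    have e2 : ∏ e ∈ (R.dm δ).edges \ F, (1 - (hp : Edg → ℝ) e) =
        (1 - ((pc : unitInterval) : ℝ)) ^ ((R.dm δ).edges \ F).card := by
      rw [hpc, ← Finset.prod_const]
      rfl
    rw [e1, e2]
    rfl
  · rw [hpc]
    positivity

theorem main : S_INT := by
  intro R δ ε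
  refine ⟨fun Φ hΦ hb => int_law2 R δ ε Φ hΦ hb, fun f hf' hb => int_law R δ f hf' hb, ?_, ?_⟩
  · refine Measure.ext fun G hG => ?_
    rw [Measure.map_apply measurable_fst hG]
    show law2M R δ ε (Prod.fst ⁻¹' G) = lawM R δ pc G
    rw [law2M_apply R δ ε (measurable_fst hG), lawM_apply R δ pc hG, hp_eq]
    congr 1
    exact A6_left (E := Edg) (fun _ => 1 - (ε : ℝ)) (R.dm δ).edges
      (fun F => ind ((⟨R.curve δ F⟩ : Curve) ∈ G))
  · refine Measure.ext fun G hG => ?_
    rw [Measure.map_apply measurable_snd hG]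
    show law2M R δ ε (Prod.snd ⁻¹' G) = lawM R δ pc G
    rw [law2M_apply R δ ε (measurable_snd hG), lawM_apply R δ pc hG, hp_eq, E2_swap]
    congr 1
    exact A6_left (E := Edg) (fun _ => 1 - (ε : ℝ)) (R.dm δ).edges
      (fun F => ind ((⟨R.curve δ F⟩ : Curve) ∈ G))

end Pool.Agent.N348.PN.Int
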