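import Pool.Agent.N931.PN.Stm5
import Pool.Agent.N394.PN.WF

/-!
Project PN (helper931), part WF2: long excursions of faces near the free arc give a dual crossing
which is not connected to the boundary.
-/

set_option autoImplicit false

namespace Pool.Agent.N348.PN.WF2

open H974 H12S H389NS H984N H984P H342P Finset
open Pool.Agent.N116.EW Pool.Agent.N144.EW Pool.Agent.N931.PN
open Pool.Agent.N394.PN.WF (outer_of_out outer_sub firstOutD blk_of_face Out)

theorem out_of_not_inF {D : Dm} {f : Vtx} (h : ¬ Pool.Agent.N931.PN.inF D f) : Out D f := by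
  unfold Pool.Agent.N931.PN.inF at h
  unfold Out
  omega

/-- a path of positive length starts with an edge -/
theorem first_edge {S : Set Edg} {f g : Vtx} (h : DReach S f g) (hne : f ≠ g) :
    ∃ e ∈ S, f = dsrc e ∨ f = dtgt e := by
  rcases Relation.ReflTransGen.cases_head h with h1 | ⟨v, ⟨e, he, hc⟩, _⟩
  · exact absurd h1 hne
  · refine ⟨e, he, ?_⟩
    rcases hc with ⟨h1, _⟩ | ⟨_, h1⟩
    · exact Or.inl h1.symm
    · exact Or.inr h1.symm

theorem last_edge {S : Set Edg} {f g : Vtx} (h : DReach S f g) (hne : f ≠ g) :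
    ∃ e ∈ S, g = dsrc e ∨ g = dtgt e := by
  rcases Relation.ReflTransGen.cases_tail h with h1 | ⟨v, _, e, he, hc⟩
  · exact absurd h1.symm hne
  · refine ⟨e, he, ?_⟩
    rcases hc with ⟨_, h1⟩ | ⟨h1, _⟩
    · exact Or.inr h1.symm
    · exact Or.inl h1.symm

theorem main : S_WF2 := by
  intro D hD G B hG z d R ρ hN hd hdR hρ hB hwf hbad
  obtain ⟨e, heG, heF, x, y, z', hxe, hyz, hx, hyc, hz', w, hw, hzw⟩ := hbad
  have heE : e ∈ D.edges := hG heG
  have heB : e ∈ B := by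
    by_contra h
    exact heF (Or.inl (by rw [Finset.mem_coe, Finset.mem_sdiff]; exact ⟨heG, h⟩))
  have hed : e ∈ blk z d := hB heB
  have hed' := blk_iff.1 hed
  have hfaces := dface_near hed'.1 hed'.2
  have hze : z' = dsrc e ∨ z' = dtgt e := (hyz.imp And.right And.right).symm
  have hzd : sd z' z ≤ d + 1 := by rcases hze with h | h <;> rw [h]; exacts [hfaces.1, hfaces.2]
  have hwz : (R : ℤ) + 3 ≤ sd w z := by
    have hρ' : (R : ℤ) + d + 4 ≤ ρ := by exact_mod_cast hρ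
    rw [le_sd_iff] at hw ⊢
    rw [sd_le_iff] at hzd
    omega
  have hF0 : ∀ g, g ∈ G → g ∉ blk z d → g ∈ G \ B := fun g h1 h2 =>
    Finset.mem_sdiff.2 ⟨h1, fun h => h2 (hB h)⟩
  have hdR' : (d : ℤ) + 4 ≤ R := by exact_mod_cast hdR
  have hwR : (R : ℤ) ≤ sd w z := by omega
  obtain ⟨w', h1, h2⟩ := firstOutD hwR hzw
  obtain ⟨f, h3, h4⟩ := lastBoxD hzd h2
  have hne : f ≠ w' := by
    rintro rfl
    omega
  have harm : DReach (cE D z d R G) f w' := by
    refine h4.mono ?_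
    rintro g ⟨⟨⟨h5, h6, _, _⟩, h7⟩, h8⟩
    refine ⟨h5, fun h => h6 (Or.inl (by exact_mod_cast hF0 g h h8)), ?_⟩
    rw [AN, Finset.mem_sdiff]
    exact ⟨blk_of_face h7, h8⟩
  have hfK : f ∉ D.dclu G := by
    obtain ⟨g, ⟨⟨⟨_, _, h5, h6⟩, _⟩, _⟩, h7⟩ := first_edge h4 hne
    rcases h7 with h7 | h7
    · rw [h7]; exact h5
    · rw [h7]; exact h6
  have hcE : ∀ g ∈ cE D z d R G, g ∈ D.edges ∧ g ∉ D.wir ∧ g ∉ D.cfg G := by
    rintro g ⟨h5, h6, h7⟩
    have hw : g ∉ D.wir := by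
      intro h8
      have h9 := hwf (src g) ⟨g, h8, Or.inl rfl⟩
      rw [AN, Finset.mem_sdiff, blk_iff] at h7
      have h10 := h7.1.1
      omega
    refine ⟨h5, hw, ?_⟩
    rintro (h8 | h8)
    · exact h6 h8
    · exact hw h8
  refine ⟨f, w', h3, h1, harm, ?_⟩
  intro f' hf' hr
  have hface : ∃ g ∈ cE D z d R G, f' = dsrc g ∨ f' = dtgt g := by
    by_cases hff : f = f'
    · rw [← hff]
      exact first_edge harm hne
    · exact last_edge hr hff
  obtain ⟨g, hg, hgf⟩ := hface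
  have h5 := hcE g hg
  have hout : f' ∈ D.outer := outer_of_out h5.1 h5.2.1 hgf (out_of_not_inF hf')
  apply hfK
  refine ⟨f', hout, ?_⟩
  refine hr.symm.mono ?_
  intro g1 hg1
  exact ⟨(hcE g1 hg1).1, (hcE g1 hg1).2.2⟩

end Pool.Agent.N348.PN.WF2
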